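import Pool.Agent.X212.Ck.Count
import Pool.Agent.X212.Ck.Network

/-!
There is no universal space in the `C_k`-stable closure of the class of separable metrizable
spaces.
-/

namespace Pool.Agent.Results.MP_a55298_gt.NoUniversalSpace

open Set Topology TopologicalSpace Cardinal Pool.Agent.X212.Ck

universe u

/-- A class of topological spaces. -/
abbrev SpaceClass : Type (u + 1) := (X : Type u) → TopologicalSpace X → Prop

/-- A stable class: closed under subspaces, homeomorphic images, countable sums and countable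
products. -/
structure IsStable (𝒞 : SpaceClass.{u}) : Prop where
  /-- subspaces and homeomorphic images -/
  embedding : ∀ (X Y : Type u) (tX : TopologicalSpace X) (tY : TopologicalSpace Y) (f : Y → X),
    IsEmbedding f → 𝒞 X tX → 𝒞 Y tY
  /-- countable topological sums -/
  sum : ∀ (ι : Type) [Countable ι] (X : ι → Type u) (t : ∀ i, TopologicalSpace (X i)),
    (∀ i, 𝒞 (X i) (t i)) → 𝒞 (Σ i, X i) inferInstance
  /-- countable Tychonoff products -/
  prod : ∀ (ι : Type) [Countable ι] (X : ι → Type u) (t : ∀ i, TopologicalSpace (X i)),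
    (∀ i, 𝒞 (X i) (t i)) → 𝒞 (∀ i, X i) inferInstance

/-- A `C_k`-stable class: stable, and closed under `C_k(X, Y)` with `X` Lindelof. Mathlib's
topology on `C(X, Y)` is the compact-open topology. -/
structure IsCkStable (𝒞 : SpaceClass.{u}) : Prop extends IsStable 𝒞 where
  /-- function spaces -/
  functions : ∀ (X Y : Type u) (tX : TopologicalSpace X) (tY : TopologicalSpace Y),
    𝒞 X tX → 𝒞 Y tY → LindelofSpace X → 𝒞 C(X, Y) inferInstance

/-- The smallest `C_k`-stable class containing a given class. -/
def CkClosure (𝒳 : SpaceClass.{u}) : SpaceClass.{u} := fun X t =>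
  ∀ 𝒞 : SpaceClass.{u}, IsCkStable 𝒞 → (∀ (Y : Type u) (tY : TopologicalSpace Y),
    𝒳 Y tY → 𝒞 Y tY) → 𝒞 X t

/-- The class of separable metrizable spaces. -/
def SepMetrizable : SpaceClass.{u} := fun X _ => SeparableSpace X ∧ MetrizableSpace X

lemma regular_sigma {ι : Type} {X : ι → Type u} [∀ i, TopologicalSpace (X i)]
    [∀ i, RegularSpace (X i)] : RegularSpace (Σ i, X i) := by
  refine RegularSpace.of_exists_mem_nhds_isClosed_subset ?_
  rintro ⟨i, x⟩ s hs
  have h1 : Sigma.mk i ⁻¹' s ∈ 𝓝 x := continuous_sigmaMk.continuousAt.preimage_mem_nhds hs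
  obtain ⟨C, hC, hCc, hCs⟩ := exists_mem_nhds_isClosed_subset h1
  exact ⟨Sigma.mk i '' C, isOpenMap_sigmaMk.image_mem_nhds hC, isClosedMap_sigmaMk C hCc,
    image_subset_iff.2 hCs⟩

/-- Regular spaces with a countable `k`-network form a `C_k`-stable class. -/
lemma ckStable_kn : IsCkStable (fun (X : Type u) _ => T3Space X ∧ HasKN X) where
  embedding := by
    intro X Y tX tY f hf h
    have := h.1
    exact ⟨hf.t3Space, h.2.of_isEmbedding hf⟩
  sum := by
    intro ι _ X t h
    have := fun i => (h i).1
    have := regular_sigma (X := X)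
    exact ⟨inferInstance, HasKN.sigma fun i => (h i).2⟩
  prod := by
    intro ι _ X t h
    have := fun i => (h i).1
    exact ⟨inferInstance, HasKN.pi fun i => (h i).2⟩
  functions := by
    intro X Y tX tY hX hY _
    have := hX.1
    have := hY.1
    exact ⟨inferInstance, hX.2.continuousMap hY.2⟩

/-- There is no universal space in the `C_k`-stable closure of the class of separable
metrizable spaces. -/
theorem result : ¬ ∃ (U : Type u) (tU : TopologicalSpace U), CkClosure SepMetrizable U tU ∧
    ∀ (Z : Type u) (tZ : TopologicalSpace Z), CkClosure SepMetrizable Z tZ →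
      ∃ f : Z → U, IsEmbedding f := by
  rintro ⟨U, tU, hU, huniv⟩
  have h1 : T3Space U ∧ HasKN U := by
    refine hU _ ckStable_kn ?_
    rintro Y tY ⟨h1, h2⟩
    have : SecondCountableTopology Y := by
      let _ := metrizableSpaceMetric Y
      exact UniformSpace.secondCountable_of_separable Y
    exact ⟨inferInstance, hasKN_of_secondCountable Y⟩
  have := h1.1
  obtain ⟨M, hM⟩ := exists_not_inducing_of_mk_le U h1.2.mk_le
  have h2 : SecondCountableTopology (ULift.{u} M) :=
    (Homeomorph.ulift (X := M)).isEmbedding.secondCountableTopology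
  have h3 : SecondCountableTopology (ULift.{u} ℝ) :=
    (Homeomorph.ulift (X := ℝ)).isEmbedding.secondCountableTopology
  have hM1 : SepMetrizable (ULift.{u} M) inferInstance :=
    ⟨inferInstance, (Homeomorph.ulift (X := M)).isEmbedding.metrizableSpace⟩
  have hR1 : SepMetrizable (ULift.{u} ℝ) inferInstance :=
    ⟨inferInstance, (Homeomorph.ulift (X := ℝ)).isEmbedding.metrizableSpace⟩
  have hL : LindelofSpace (ULift.{u} M) := inferInstance
  have hZ : CkClosure SepMetrizable C(ULift.{u} M, ULift.{u} ℝ) inferInstance := by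
    intro 𝒞 h𝒞 hs
    exact h𝒞.functions _ _ _ _ (hs _ _ hM1) (hs _ _ hR1) hL
  obtain ⟨f, hf⟩ := huniv _ _ hZ
  let e : C(M, ℝ) ≃ₜ C(ULift.{u} M, ULift.{u} ℝ) :=
    (Homeomorph.ulift (X := M)).symm.arrowCongr (Homeomorph.ulift (X := ℝ)).symm
  exact hM (f ∘ e) (hf.isInducing.comp e.isInducing)

end Pool.Agent.Results.MP_a55298_gt.NoUniversalSpace
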